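import Pool.Agent.H89.IR.Final

/-!
# MP_7c460f_an: an integral operator on complex algebraic varieties has infinite rank

`D ⊂ ℝ³` bounded, `f ∈ L^p(D)` nonzero, `F(z) = ∫_D f(x) exp (i z·x) dx`. For polynomials `L₁, L₂` of
degree at least one on `ℂ³` with transversal zero sets, and strictly positive measures `m₁, m₂` on
these sets for which all functions `exp (i z·x)` are in `L²(m_j)`, the operator
`T h (u₂) = ∫ h(u₁) F(u₁ + u₂) dm₁(u₁)` from `L²(m₁)` to `L²(m₂)` is well defined, and its range is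
not contained in the span of finitely many functions.
-/

set_option autoImplicit false

open MeasureTheory Pool.Agent.H89.IR

theorem Pool.Agent.Results.MP_7c460f_an.InfiniteRank.result
    (D : Set (Fin 3 → ℝ)) (hD : MeasurableSet D) (hb : Bornology.IsBounded D)
    (f : (Fin 3 → ℝ) → ℂ) (p : ENNReal) (hp : 1 ≤ p) (hf : MemLp f p (volume.restrict D))
    (hf0 : ¬ f =ᵐ[volume.restrict D] 0)
    (L₁ L₂ : MvPolynomial (Fin 3) ℂ) (h₁ : 1 ≤ L₁.totalDegree) (h₂ : 1 ≤ L₂.totalDegree)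
    (ht : Transversal (Zero L₁) (Zero L₂))
    (m₁ m₂ : Measure (Fin 3 → ℂ)) (hm₁ : PosOn (Zero L₁) m₁) (hm₂ : PosOn (Zero L₂) m₂)
    (hi₁ : ∀ x : Fin 3 → ℝ, MemLp (ex x) 2 m₁) (hi₂ : ∀ x : Fin 3 → ℝ, MemLp (ex x) 2 m₂) :
    (∀ h : (Fin 3 → ℂ) → ℂ, MemLp h 2 m₁ →
      (∀ u₂ : Fin 3 → ℂ, Integrable (fun u₁ => h u₁ * FT D f (u₁ + u₂)) m₁) ∧
        MemLp (Op D f m₁ h) 2 m₂) ∧
    ∀ (n : ℕ) (g : Fin n → (Fin 3 → ℂ) → ℂ), ∃ h : (Fin 3 → ℂ) → ℂ, MemLp h 2 m₁ ∧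
      ∀ c : Fin n → ℂ, ¬ Op D f m₁ h =ᵐ[m₂] fun u₂ => ∑ k, c k * g k u₂ := by
  have hfinD : IsFiniteMeasure (volume.restrict D) :=
    ⟨by rw [Measure.restrict_apply_univ]; exact hb.measure_lt_top⟩
  have hfi : IntegrableOn f D := hf.integrable hp
  obtain ⟨R, hR⟩ : ∃ R : ℝ, ∀ x ∈ D, ‖x‖ ≤ R := by
    obtain ⟨R, hR⟩ := hb.subset_closedBall 0
    exact ⟨R, fun x hx => by simpa using hR hx⟩
  have hFc := continuous_FT hD hb hfi
  have hnice : Pool.Agent.H89.Nice (FT D f) := Pool.Agent.H89.FL_nice_aux hD hfi hR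
  obtain ⟨C, R', -, hC⟩ := kernel_le hD hb hfi
  refine ⟨fun h hh => ⟨fun u₂ => integrable_kernel hFc hC hi₁ hh u₂,
    memLp_op hFc hC hi₁ hi₂ hh⟩, ?_⟩
  intro n g
  by_contra hcon
  push Not at hcon
  have hL₁ : L₁ ≠ 0 := by
    rintro rfl
    simp at h₁
  have hL₂ : L₂ ≠ 0 := by
    rintro rfl
    simp at h₂
  have hfin₁ := finite_of_ex hi₁
  have hball : ∀ (V : Set (Fin 3 → ℂ)) (m : Measure (Fin 3 → ℂ)), PosOn V m →
      ∀ u ∈ V, ∀ r > 0, 0 < m (Metric.ball u r) := by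
    intro V m hm u hu r hr
    exact lt_of_lt_of_le (hm.pos _ Metric.isOpen_ball ⟨u, hu, Metric.mem_ball_self hr⟩)
      (measure_mono Set.inter_subset_right)
  have hdet := det_zero_of_finite_rank hFc (hball _ _ hm₁) (hball _ _ hm₂) (g := g) hcon
  have hvan : ∀ a ∈ Zero L₁, ∀ b ∈ Zero L₂, FT D f (a + b) = 0 :=
    fun a ha b hb' => vanish_sum hnice hL₁ hL₂ hdet ha hb'
  have hall := zero_of_sum hnice hL₁ hL₂ ht hvan
  exact hf0 (Pool.Agent.H89.FL_injective hD hfi fun x => hall _)
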